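import Mathlib
import Pool.Agent.H21.LevyDef

namespace Pool.Agent.Results.MP_c070b6_an.Counter

open Pool.Agent.H21.Levy MeasureTheory Complex

noncomputable def u (z : ℂ) : ℝ := -(z.re ^ 2 - 16) ^ 2 / 64 - z.im ^ 2

theorem u_smooth : ContDiff ℝ 2 u := by
  have h1 : ContDiff ℝ 2 fun z : ℂ => z.re := reCLM.contDiff
  have h2 : ContDiff ℝ 2 fun z : ℂ => z.im := imCLM.contDiff
  unfold u; fun_prop

theorem du : fderiv ℝ u = fun z =>
    (-(z.re ^ 3 - 16 * z.re) / 16) • reCLM + (-2 * z.im) • imCLM := by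
  funext z
  have h1 : HasFDerivAt (fun z : ℂ => z.re) reCLM z := reCLM.hasFDerivAt
  have h2 : HasFDerivAt (fun z : ℂ => z.im) imCLM z := imCLM.hasFDerivAt
  have h := ((((h1.pow 2).sub_const 16).pow 2).neg.mul_const (1 / 64)).sub (h2.pow 2)
  have e : u = fun z : ℂ => -(z.re ^ 2 - 16) ^ 2 * (1 / 64) - z.im ^ 2 := by
    funext z; simp only [u]; ring
  rw [e]
  refine h.fderiv.trans ?_
  ext <;> simp <;> ring

theorem lap (z : ℂ) : Laplacian.laplacian u z = -1 - 3 * z.re ^ 2 / 16 := by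
  have h1 : HasFDerivAt (fun z : ℂ => z.re) reCLM z := reCLM.hasFDerivAt
  have h2 : HasFDerivAt (fun z : ℂ => z.im) imCLM z := imCLM.hasFDerivAt
  have h := ((((h1.pow 3).sub (h1.const_mul 16)).neg.mul_const (1 / 16)).smul_const reCLM).add
    ((h2.const_mul (-2)).smul_const imCLM)
  have e : (fun z : ℂ => (-(z.re ^ 3 - 16 * z.re) / 16) • reCLM + (-2 * z.im) • imCLM) =
      fun z : ℂ => (-(z.re ^ 3 - 16 * z.re) * (1 / 16)) • reCLM + (-2 * z.im) • imCLM := by
    funext z; rw [mul_one_div]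
  rw [InnerProductSpace.laplacian_eq_iteratedFDeriv_complexPlane]
  simp only [iteratedFDeriv_two_apply, du, e]
  erw [h.fderiv]
  simp; ring

theorem area_ball (c : ℝ) (hc : c ^ 2 = 16) (E : Set ℂ) (h : Metric.ball (c : ℂ) (1 / 2) ⊆ E) :
    ENNReal.ofReal (1 / 10) ≤ area u E := by
  refine le_trans ?_ (lintegral_mono_set h)
  have : ∀ z ∈ Metric.ball (c : ℂ) (1 / 2), ENNReal.ofReal (1 / 7) ≤
      ENNReal.ofReal (Real.exp (2 * u z)) := by
    intro z hz
    refine ENNReal.ofReal_le_ofReal ?_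
    rw [Metric.mem_ball, dist_eq_norm] at hz
    have a1 := (abs_re_le_norm _).trans hz.le
    have a2 := (abs_im_le_norm _).trans hz.le
    simp only [sub_re, ofReal_re, sub_im, ofReal_im, sub_zero, abs_le] at a1 a2
    have a3 : c ≤ 4 := by nlinarith
    have a4 : -4 ≤ c := by nlinarith
    have a5 : (z.re + c) ^ 2 ≤ 81 := by nlinarith
    have a6 : (z.re - c) ^ 2 ≤ 1 / 4 := by nlinarith
    have a7 : (z.re ^ 2 - 16) ^ 2 ≤ 81 * (1 / 4) := by
      rw [← hc, sq_sub_sq, mul_pow]; gcongr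
    have a8 : -(3 / 5) ≤ u z := by unfold u; nlinarith
    have a9 := Real.add_one_le_exp (u z)
    rw [two_mul, Real.exp_add]
    nlinarith
  refine le_trans ?_ (setLIntegral_mono' Metric.isOpen_ball.measurableSet this)
  rw [setLIntegral_const, Complex.volume_ball, ← ENNReal.ofReal_coe_nnreal,
    ← ENNReal.ofReal_pow (by norm_num), ← ENNReal.ofReal_mul (by norm_num),
    ← ENNReal.ofReal_mul (by norm_num)]
  refine ENNReal.ofReal_le_ofReal ?_
  have := Real.pi_gt_three
  simp only [NNReal.coe_real_pi]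
  linarith

theorem result : ∃ (u : ℂ → ℝ) (Ω : Set ℂ), ContDiff ℝ 2 u ∧
    (∀ z, Laplacian.laplacian u z + Real.exp (2 * u z) ≤ 0) ∧ area u Set.univ < ⊤ ∧
    IsSmoothDomain Ω ∧ bdryLength u Ω ^ 2 < area u Ω * area u Ωᶜ := by
  have hf : frontier {z : ℂ | 0 < z.re} = {z | z.re = 0} := frontier_setOf_lt_re 0
  refine ⟨u, {z | 0 < z.re}, u_smooth, fun z => ?_, ?_,
    ⟨isOpen_lt continuous_const continuous_re, (convex_halfSpace_re_gt 0).isConnected ⟨1, by simp⟩,
      reCLM, reCLM.contDiff, rfl, hf, fun z _ h => ?_⟩, ?_⟩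
  · have : Real.exp (2 * u z) ≤ 1 := Real.exp_le_one_iff.2 (by unfold u; nlinarith)
    rw [lap]; nlinarith
  · have h := (GaussianFourier.integrable_cexp_neg_mul_sq_norm_add (V := ℂ) (b := 1) (by simp) 0
      0).norm.const_mul (Real.exp 24)
    rw [area, Measure.restrict_univ]
    refine lt_of_le_of_lt (lintegral_mono fun z => ENNReal.ofReal_le_ofReal ?_) h.lintegral_lt_top
    rw [norm_exp, ← Real.exp_add, Real.exp_le_exp]
    simp only [← ofReal_pow, Complex.sq_norm, normSq_apply]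
    simp only [u, neg_mul, one_mul, zero_mul, add_zero, neg_re, ofReal_re]
    nlinarith [sq_nonneg (z.re ^ 2 - 32), sq_nonneg z.im]
  · rw [reCLM.fderiv] at h
    simpa using congrArg (fun f : ℂ →L[ℝ] ℝ => f 1) h
  · have hi : Isometry fun t : ℝ => (t : ℂ) * I :=
      Isometry.of_dist_eq fun a b => by
        rw [dist_eq_norm, ← sub_mul, ← ofReal_sub]; simp [Real.dist_eq, ← ofReal_sub]
    have hr : {z : ℂ | z.re = 0} = Set.range fun t : ℝ => (t : ℂ) * I := by
      ext z
      refine ⟨fun h => ⟨z.im, Complex.ext (by simpa using h.symm) (by simp)⟩, ?_⟩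
      rintro ⟨t, rfl⟩; simp
    have hL : bdryLength u {z | 0 < z.re} = ENNReal.ofReal (Real.exp (-4) * √Real.pi) := by
      rw [bdryLength, hf, hr, ← hi.map_hausdorffMeasure (Or.inl zero_le_one),
        hi.isClosedEmbedding.measurableEmbedding.lintegral_map, hausdorffMeasure_real]
      have := integral_gaussian 1
      rw [div_one] at this
      rw [← this, ← integral_const_mul, ofReal_integral_eq_lintegral_ofReal
        ((integrable_exp_neg_mul_sq one_pos).const_mul _) (.of_forall fun _ => by positivity)]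
      refine lintegral_congr fun t => ?_
      rw [← Real.exp_add]; congr 2; simp [u]; ring
    have h1 := area_ball 4 (by norm_num) {z | 0 < z.re} fun z hz => by
      rw [Metric.mem_ball, dist_eq_norm] at hz
      have a1 := (abs_re_le_norm _).trans hz.le
      simp only [sub_re, ofReal_re, abs_le] at a1
      simp only [Set.mem_setOf_eq]; linarith
    have h2 := area_ball (-4) (by norm_num) {z | 0 < z.re}ᶜ fun z hz => by
      rw [Metric.mem_ball, dist_eq_norm] at hz
      have a1 := (abs_re_le_norm _).trans hz.le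
      simp only [sub_re, ofReal_re, abs_le] at a1
      simp only [Set.mem_compl_iff, Set.mem_setOf_eq]; linarith
    refine lt_of_lt_of_le ?_ (mul_le_mul' h1 h2)
    rw [hL, ← ENNReal.ofReal_pow (by positivity), ← ENNReal.ofReal_mul (by norm_num),
      ENNReal.ofReal_lt_ofReal_iff (by norm_num), mul_pow, Real.sq_sqrt Real.pi_pos.le]
    have a1 : Real.exp (-4) * Real.exp 1 ^ 4 = 1 := by rw [← Real.exp_nat_mul, ← Real.exp_add]; simp
    have a2 : (2.7 : ℝ) ^ 4 ≤ Real.exp 1 ^ 4 := by gcongr; linarith [Real.exp_one_gt_d9]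
    have a3 := Real.exp_pos (-4)
    have a4 : Real.exp (-4) ≤ 1 / 50 := by nlinarith
    have := Real.pi_le_four
    nlinarith [Real.pi_pos]

end Pool.Agent.Results.MP_c070b6_an.Counter
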